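import Pool.Agent.Lib.MP_6ec4b3_lc.Interfaces

/-!
# Module PTD: the decision procedure is computable in polynomial time
-/

set_option autoImplicit false

namespace Pool.Agent.Polya.H64

open Pool.Agent.Shoped30 Pool.Agent.TMLib Pool.Agent.Polya

variable {α : Type} [TrEnc α]

theorem pt_wf {c h : α → ℕ} (hc : PTime c) (hh : PTime h) : PTime (fun a => wf (c a) (h a)) := by
  unfold wf
  fun_prop

theorem pt_tf (k : ℕ) {w : α → ℕ} (hw : PTime w) : PTime (fun a => tf k (w a)) := by
  unfold tf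
  fun_prop

theorem pt_tc (k : ℕ) {c h : α → ℕ} (hc : PTime c) (hh : PTime h) :
    PTime (fun a => tc k (c a) (h a)) :=
  pt_tf k (pt_wf hc hh)

theorem pt_lf (k : ℕ) {n w : α → ℕ} (hn : PTime n) (hw : PTime w) :
    PTime (fun a => lf k (n a) (w a)) := by
  have h := pt_tf k hw
  unfold lf
  fun_prop

theorem pt_lmx (k : ℕ) {c h : α → ℕ} (hc : PTime c) (hh : PTime h) :
    PTime (fun a => lmx k (c a) (h a)) :=
  pt_lf k (by fun_prop) (pt_wf hc hh)

theorem pt_nblocks {n l t : α → ℕ} (hn : PTime n) (hl : PTime l) (ht : PTime t) :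
    PTime (fun a => nblocks (n a) (l a) (t a)) := by
  unfold nblocks
  fun_prop

theorem pt_nbits {n l t : α → ℕ} (hn : PTime n) (hl : PTime l) (ht : PTime t) :
    PTime (fun a => nbits (n a) (l a) (t a)) := by
  unfold nbits
  fun_prop

theorem pt_mmx (k : ℕ) {c h : α → ℕ} (hc : PTime c) (hh : PTime h) :
    PTime (fun a => mmx k (c a) (h a)) :=
  pt_nblocks (by fun_prop) (pt_lmx k hc hh) (pt_tc k hc hh)

theorem pt_tmx (k : ℕ) {c h : α → ℕ} (hc : PTime c) (hh : PTime h) :
    PTime (fun a => tmx k (c a) (h a)) := by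
  have h1 := pt_mmx k hc hh
  have h2 := pt_wf hc hh
  unfold tmx
  fun_prop

theorem pt_xmx (k : ℕ) {c h : α → ℕ} (hc : PTime c) (hh : PTime h) :
    PTime (fun a => xmx k (c a) (h a)) := by
  have h1 := pt_mmx k hc hh
  unfold xmx
  fun_prop

theorem pt_bmx (k : ℕ) (p : Polynomial ℕ) {c h : α → ℕ} (hc : PTime c) (hh : PTime h) :
    PTime (fun a => bmx k p (c a) (h a)) :=
  PTime.add (pt_nbits (by fun_prop) (pt_lmx k hc hh) (pt_tc k hc hh)) (pt_poly p (pt_xmx k hc hh))

theorem pt_pairWord {f g : α → List Bool} (hf : PTime f) (hg : PTime g) :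
    PTime (fun a => pairWord (f a) (g a)) := by
  unfold pairWord
  exact PTime.append (PTime.flatMap (l := f) (F := fun _ b => [true, b]) hf (by fun_prop))
    (PTime.cons (PTime.const _) hg)

theorem ptd (hW : PTW) (hU : PTU) : PTD := by
  intro k A p hf hA hhf
  refine ⟨?_, pt_lmx k PTime.id hhf, pt_tmx k PTime.id hhf, pt_bmx k p PTime.id hhf⟩
  have hlen : PTime (fun x : List Cl4 × ℕ × ℕ × List Bool => x.1.length) := by fun_prop
  have hh : PTime (fun x : List Cl4 × ℕ × ℕ × List Bool => hf x.1.length) :=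
    hhf.comp' hlen
  have hb : PTime (fun x : List Cl4 × ℕ × ℕ × List Bool =>
      nbits (4 * x.1.length) x.2.1 (tc k x.1.length (hf x.1.length))) :=
    pt_nbits (by fun_prop) (by fun_prop) (pt_tc k hlen hh)
  have hr : PTime (fun x : List Cl4 × ℕ × ℕ × List Bool => x.2.2.2) := by fun_prop
  have hw : PTime (fun x : List Cl4 × ℕ × ℕ × List Bool =>
      cnfWord k (hf x.1.length) x.1 x.2.1
        (x.2.2.2.take (nbits (4 * x.1.length) x.2.1 (tc k x.1.length (hf x.1.length))))) :=
    (hW k hf hhf).comp' (f := fun x : List Cl4 × ℕ × ℕ × List Bool => (x.1, x.2.1,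
      x.2.2.2.take (nbits (4 * x.1.length) x.2.1 (tc k x.1.length (hf x.1.length)))))
      (PTime.pair (by fun_prop) (PTime.pair (by fun_prop) (PTime.take hb hr)))
  have ho : PTime (fun x : List Cl4 × ℕ × ℕ × List Bool =>
      unpairW (A (pairWord (cnfWord k (hf x.1.length) x.1 x.2.1
        (x.2.2.2.take (nbits (4 * x.1.length) x.2.1 (tc k x.1.length (hf x.1.length)))))
        ((x.2.2.2.drop (nbits (4 * x.1.length) x.2.1 (tc k x.1.length (hf x.1.length)))).take
          (p.eval (cnfWord k (hf x.1.length) x.1 x.2.1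
            (x.2.2.2.take (nbits (4 * x.1.length) x.2.1
              (tc k x.1.length (hf x.1.length))))).length))))) :=
    hU.1.comp' (hA.comp' (pt_pairWord hw
      (PTime.take (pt_poly p (PTime.length hw)) (PTime.drop hb hr))))
  have ht : PTime (fun x : List Cl4 × ℕ × ℕ × List Bool => x.2.2.1) := by fun_prop
  refine PTime.of_eq (PTime.not (pt_lt (PTime.length (PTime.fst ho))
    (PTime.add (PTime.length (PTime.snd ho)) ht))) ?_
  intro x
  unfold dec
  rw [← decide_not]
  exact decide_eq_decide.2 not_lt.symm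

end Pool.Agent.Polya.H64
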